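import Pool.Agent.H2.HF.LowA

/-!
# HF Low: the lower density of the non-Wieferich primes, end (helper2)
-/

set_option autoImplicit false

namespace Pool.Agent.H2.HF

open Finset Filter Pool.Agent.H80.HF

theorem wie_iff (p : ℕ) : Wie p ↔ p ^ 2 ∣ 2 ^ (p - 1) - 1 := by
  unfold Wie
  have h1 : 1 ≤ 2 ^ (p - 1) := Nat.one_le_two_pow
  have h2 : ((2 ^ (p - 1) - 1 : ℕ) : ℤ) = 2 ^ (p - 1) - 1 := by
    push_cast [h1]
    ring
  rw [← h2, ← Nat.cast_pow, Int.natCast_dvd_natCast]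

open Classical in
/-- the sum of `log p` over the non-Wieferich primes `5 ≤ p ≤ x` -/
noncomputable def thN (x : ℕ) : ℝ := ∑ p ∈ (Ioc 4 x).filter (fun p => p.Prime ∧ ¬ Wie p), Real.log p

theorem thN_nonneg (x : ℕ) : 0 ≤ thN x := sum_nonneg fun p _ => Real.log_natCast_nonneg p

open Classical in
theorem thN_split (L x : ℕ) (hL : 2 ≤ L) (hx : 18 * L ≤ x) :
    thN (2 * L) + ∑ p ∈ (Ioc (2 * L) (18 * L)).filter (fun p => p.Prime ∧ ¬ Wie p), Real.log p ≤ thN x := by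
  unfold thN
  rw [← sum_union]
  · refine sum_le_sum_of_subset_of_nonneg ?_ fun p _ _ => Real.log_natCast_nonneg p
    intro p hp
    rw [mem_union, mem_filter, mem_filter, mem_Ioc, mem_Ioc] at hp
    rw [mem_filter, mem_Ioc]
    rcases hp with h | h
    · exact ⟨⟨h.1.1, by omega⟩, h.2⟩
    · exact ⟨⟨by omega, by omega⟩, h.2⟩
  · rw [disjoint_left]
    intro p hp hq
    rw [mem_filter, mem_Ioc] at hp hq
    omega

theorem thN_low (hmain : MainIneq) : ∃ C : ℝ, ∀ x : ℕ, 31 / 100 * (x : ℝ) - C ≤ thN x := by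
  obtain ⟨L0, hL0⟩ := eventually_atTop.1 (theta_step hmain)
  set N := max L0 132 with hN
  have hN1 : L0 ≤ N := le_max_left _ _
  have hN2 : 132 ≤ N := le_max_right _ _
  refine ⟨31 / 100 * (18 * N + 18 : ℝ), fun x => ?_⟩
  induction x using Nat.strong_induction_on with
  | _ x ih =>
    rcases Nat.lt_or_ge x (18 * N) with hx | hx
    · have h1 : (x : ℝ) ≤ 18 * N + 18 := by
        have : x ≤ 18 * N + 18 := by omega
        exact_mod_cast this
      have h2 := thN_nonneg x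
      nlinarith
    · set L := x / 18 with hL
      have h1 : N ≤ L := by omega
      have h2 : 18 * L ≤ x := by omega
      have h3 : x ≤ 18 * L + 17 := by omega
      have h4 := ih (2 * L) (by omega)
      have h5 := hL0 L (by omega)
      have h6 := thN_split L x (by omega) h2
      have h7 : (x : ℝ) ≤ 18 * L + 17 := by exact_mod_cast h3
      have h8 : (132 : ℝ) ≤ L := by exact_mod_cast (hN2.trans h1)
      push_cast at h4
      nlinarith

/-- The non-Wieferich primes `p ≥ 5`. -/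
def NonW : Set ℕ := {p : ℕ | p.Prime ∧ 5 ≤ p ∧ ¬ p ^ 2 ∣ 2 ^ (p - 1) - 1}

open Classical in
theorem count_ge (x : ℕ) (hx : 1 ≤ x) : thN x ≤ ({p ∈ NonW | p ≤ x}.ncard : ℝ) * Real.log x := by
  have h1 : {p ∈ NonW | p ≤ x} = ((Ioc 4 x).filter (fun p => p.Prime ∧ ¬ Wie p) : Finset ℕ) := by
    ext p
    rw [mem_coe, mem_filter, mem_Ioc, wie_iff]
    show (p.Prime ∧ 5 ≤ p ∧ ¬ p ^ 2 ∣ 2 ^ (p - 1) - 1) ∧ p ≤ x ↔ _
    constructor
    · rintro ⟨⟨h1, h2, h3⟩, h4⟩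
      exact ⟨⟨by omega, h4⟩, h1, h3⟩
    · rintro ⟨⟨h1, h2⟩, h3, h4⟩
      exact ⟨⟨h3, by omega, h4⟩, h2⟩
  rw [h1, Set.ncard_coe_finset, ← nsmul_eq_mul]
  unfold thN
  refine sum_le_card_nsmul _ _ _ fun p hp => ?_
  rw [mem_filter, mem_Ioc] at hp
  exact Real.log_le_log (by exact_mod_cast (show 0 < p by omega)) (by exact_mod_cast hp.1.2)

/-- At least `(3/10) x / log x` non-Wieferich primes `p ≤ x`. -/
theorem low_NW (hmain : MainIneq) : ∃ x₀ : ℕ, ∀ x : ℕ, x₀ ≤ x →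
    3 / 10 * (x : ℝ) / Real.log x ≤ ({p ∈ NonW | p ≤ x}.ncard : ℝ) := by
  obtain ⟨C, hC⟩ := thN_low hmain
  refine ⟨⌈100 * C⌉₊ + 3, fun x hx => ?_⟩
  have h1 : 100 * C ≤ x := by
    have h2 := Nat.le_ceil (100 * C)
    have h3 : ((⌈100 * C⌉₊ + 3 : ℕ) : ℝ) ≤ x := by exact_mod_cast hx
    push_cast at h3
    linarith
  have h3 : (1 : ℝ) < x := by exact_mod_cast (show 1 < x by omega)
  rw [div_le_iff₀ (Real.log_pos h3)]
  have h4 := hC x
  have h5 := count_ge x (by omega)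
  linarith

/-- the form with the natural lower density -/
theorem low_NW' (hmain : MainIneq) (ε : ℝ) (hε : 0 < ε) : ∃ x₀ : ℕ, ∀ x : ℕ, x₀ ≤ x →
    (31 / 100 - ε) * ((x : ℝ) / Real.log x) ≤ ({p ∈ NonW | p ≤ x}.ncard : ℝ) := by
  obtain ⟨C, hC⟩ := thN_low hmain
  refine ⟨⌈C / ε⌉₊ + 3, fun x hx => ?_⟩
  have h1 : C / ε ≤ x := by
    have h2 := Nat.le_ceil (C / ε)
    have h3 : ((⌈C / ε⌉₊ + 3 : ℕ) : ℝ) ≤ x := by exact_mod_cast hx
    push_cast at h3
    linarith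
  rw [div_le_iff₀ hε] at h1
  have h3 : (1 : ℝ) < x := by exact_mod_cast (show 1 < x by omega)
  rw [← mul_div_assoc, div_le_iff₀ (Real.log_pos h3)]
  have h4 := hC x
  have h5 := count_ge x (by omega)
  linarith

end Pool.Agent.H2.HF
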