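import Pool.Agent.H80.HF.Defs
import Pool.Agent.H71.NB.Win

/-!
# HF Low: the lower density of the non-Wieferich primes (helper2)

From `∑_(p ∈ S) (3L - dd p) log p ≤ 10 L²` for all finite sets `S` of Wieferich primes `> 2L` and the prime number
theorem: the non-Wieferich primes in `(2L, 18L]` have `∑ log p ≥ 5 L`, hence
`∑_(p ≤ x, p not Wieferich) log p ≥ (31/100) x - C` and there are at least `(3/10) x / log x` non-Wieferich primes
`p ≤ x` for all large `x`.
-/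

set_option autoImplicit false

namespace Pool.Agent.H2.HF

open Finset Filter Pool.Agent.H80.HF

/-- partial summation -/
theorem abel (g : ℕ → ℝ) (u v : ℕ) (huv : u ≤ v) :
    ∑ p ∈ Ioc u v, ((v : ℝ) - p) * g p = ∑ k ∈ Ico u v, ∑ p ∈ Ioc u k, g p := by
  induction v, huv using Nat.le_induction with
  | base => simp
  | succ v hv ih =>
    rw [sum_Ico_succ_top hv, ← ih, sum_Ioc_succ_top hv, ← sum_add_distrib]
    push_cast
    rw [sub_self, zero_mul, add_zero]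
    refine sum_congr rfl fun p _ => ?_
    ring

theorem sum_id (u v : ℕ) (huv : u ≤ v) :
    ∑ k ∈ Ico u v, ((k : ℝ) - u) = ((v : ℝ) - u) ^ 2 / 2 - ((v : ℝ) - u) / 2 := by
  induction v, huv using Nat.le_induction with
  | base => simp
  | succ v hv ih =>
    rw [sum_Ico_succ_top hv, ih]
    push_cast
    ring

/-- the weights `v - p` on the primes of `(u, v]` -/
theorem win_lin (ε : ℝ) (hε : 0 < ε) : ∀ᶠ x : ℕ in atTop, ∀ u v : ℕ, u ≤ v → v ≤ x →
    |∑ p ∈ (Ioc u v).filter Nat.Prime, ((v : ℝ) - p) * Real.log p - ((v : ℝ) - u) ^ 2 / 2| ≤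
      ε * (x : ℝ) ^ 2 := by
  filter_upwards [Pool.Agent.H71.NB.win_one (ε / 2) (by positivity),
    eventually_ge_atTop (⌈1 / ε⌉₊ + 1)] with x h1 h2 u v huv hvx
  have hx : 1 / ε ≤ x := by
    have h3 := Nat.le_ceil (1 / ε)
    have h4 : ((⌈1 / ε⌉₊ + 1 : ℕ) : ℝ) ≤ x := by exact_mod_cast h2
    push_cast at h4
    linarith
  have hx1 : 1 ≤ ε * x := by
    rw [div_le_iff₀ hε] at hx
    linarith
  have hx0 : (0 : ℝ) ≤ x := Nat.cast_nonneg x
  have hg : ∑ p ∈ (Ioc u v).filter Nat.Prime, ((v : ℝ) - p) * Real.log p =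
      ∑ k ∈ Ico u v, ∑ p ∈ (Ioc u k).filter Nat.Prime, Real.log p := by
    have h3 := abel (fun p => if p.Prime then Real.log p else 0) u v huv
    rw [sum_filter]
    refine Eq.trans (sum_congr rfl fun p _ => ?_) (h3.trans (sum_congr rfl fun k _ => ?_))
    · split_ifs <;> simp
    · rw [sum_filter]
  have hv : (v : ℝ) ≤ x := by exact_mod_cast hvx
  have hu : (u : ℝ) ≤ v := by exact_mod_cast huv
  have hu0 : (0 : ℝ) ≤ u := Nat.cast_nonneg u
  have h3 : |∑ k ∈ Ico u v, ∑ p ∈ (Ioc u k).filter Nat.Prime, Real.log p -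
      ∑ k ∈ Ico u v, ((k : ℝ) - u)| ≤ ∑ _k ∈ Ico u v, (ε / 2 * x) := by
    rw [← sum_sub_distrib]
    refine (abs_sum_le_sum_abs _ _).trans (sum_le_sum fun k hk => ?_)
    have h4 := mem_Ico.1 hk
    exact h1 u k h4.1 (by omega)
  rw [sum_const, Nat.card_Ico, nsmul_eq_mul, Nat.cast_sub huv, sum_id u v huv] at h3
  rw [hg]
  have h4 : ((v : ℝ) - u) * (ε / 2 * x) ≤ x * (ε / 2 * x) :=
    mul_le_mul_of_nonneg_right (by linarith) (by positivity)
  have h5 : ((v : ℝ) - u) / 2 ≤ ε / 2 * x * x := by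
    have : (x : ℝ) ≤ (ε * x) * x := by nlinarith
    nlinarith
  rw [abs_le] at h3 ⊢
  constructor <;> nlinarith [h3.1, h3.2]

theorem dd_le (p : ℕ) : 6 * dd p ≤ p + 6 := by
  unfold dd
  omega

theorem dd_ge (p : ℕ) : p ≤ 6 * dd p + 6 := by
  unfold dd
  omega

/-- the inequality of `HF.main_ineq` -/
def MainIneq : Prop := ∀ᶠ L : ℕ in atTop, ∀ S : Finset ℕ,
    (∀ p ∈ S, p.Prime ∧ 2 * L < p ∧ Wie p) →
    ∑ p ∈ S, ((3 * L - dd p : ℕ) : ℝ) * Real.log p ≤ 10 * (L : ℝ) ^ 2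

open Classical in
/-- the non-Wieferich primes in `(2L, 18L]` -/
theorem theta_step (hmain : MainIneq) : ∀ᶠ L : ℕ in atTop,
    5 * (L : ℝ) ≤ ∑ p ∈ (Ioc (2 * L) (18 * L)).filter (fun p => p.Prime ∧ ¬ Wie p), Real.log p := by
  have htend : Tendsto (fun L : ℕ => 18 * L) atTop atTop :=
    tendsto_atTop_mono (fun L => by show L ≤ 18 * L; omega) tendsto_id
  filter_upwards [hmain, htend.eventually (win_lin (1 / 10000) (by norm_num)),
    htend.eventually (Pool.Agent.H71.NB.win_one (1 / 100) (by norm_num)),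
    eventually_ge_atTop 1000] with L h1 h2 h3 h4
  have hL : (1000 : ℝ) ≤ L := by exact_mod_cast h4
  have A1 := h2 (2 * L) (18 * L) (by omega) (by omega)
  have A2 := h2 (2 * L) (7 * L) (by omega) (by omega)
  have A3 := h3 (2 * L) (18 * L) (by omega) (by omega)
  push_cast at A1 A2 A3
  set P := (Ioc (2 * L) (18 * L)).filter Nat.Prime with hP
  have hPT : (Ioc (2 * L) (18 * L)).filter (fun p => p.Prime ∧ ¬ Wie p) = P.filter (fun p => ¬ Wie p) := by
    rw [hP, filter_filter]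
  rw [hPT]
  set T := P.filter (fun p => ¬ Wie p) with hT
  set S := P.filter Wie with hS
  have hmemP : ∀ p ∈ P, p.Prime ∧ 2 * L < p ∧ p ≤ 18 * L := by
    intro p hp
    rw [hP, mem_filter, mem_Ioc] at hp
    exact ⟨hp.2, hp.1.1, hp.1.2⟩
  have hlog : ∀ p ∈ P, 0 ≤ Real.log (p : ℝ) := fun p hp =>
    Real.log_natCast_nonneg p
  have B1 : ∑ p ∈ S, ((3 * L - dd p : ℕ) : ℝ) * Real.log p ≤ 10 * (L : ℝ) ^ 2 := by
    refine h1 S fun p hp => ?_
    rw [hS, mem_filter] at hp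
    exact ⟨(hmemP p hp.1).1, (hmemP p hp.1).2.1, hp.2⟩
  have B2 : ∑ p ∈ S, ((3 * L - dd p : ℕ) : ℝ) * Real.log p + ∑ p ∈ T, ((3 * L - dd p : ℕ) : ℝ) * Real.log p =
      ∑ p ∈ P, ((3 * L - dd p : ℕ) : ℝ) * Real.log p := sum_filter_add_sum_filter_not P _ _
  have B3 : ∑ p ∈ P, ((18 * (L : ℝ) - p) / 6 - 1) * Real.log p ≤
      ∑ p ∈ P, ((3 * L - dd p : ℕ) : ℝ) * Real.log p := by
    refine sum_le_sum fun p hp => mul_le_mul_of_nonneg_right ?_ (hlog p hp)
    have h5 : 3 * L ≤ (3 * L - dd p) + dd p := by omega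
    have h6 : (3 * (L : ℝ)) ≤ ((3 * L - dd p : ℕ) : ℝ) + (dd p : ℝ) := by exact_mod_cast h5
    have h7 : 6 * (dd p : ℝ) ≤ p + 6 := by exact_mod_cast dd_le p
    linarith
  have B4 : ∑ p ∈ P, ((18 * (L : ℝ) - p) / 6 - 1) * Real.log p =
      (1 / 6) * ∑ p ∈ P, (18 * (L : ℝ) - p) * Real.log p - ∑ p ∈ P, Real.log p := by
    rw [mul_sum, ← sum_sub_distrib]
    refine sum_congr rfl fun p _ => ?_
    ring
  -- the upper bound for the non-Wieferich primes
  have B5 : ∑ p ∈ T, ((3 * L - dd p : ℕ) : ℝ) * Real.log p ≤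
      (11 / 6 * (L : ℝ) + 1) * ∑ p ∈ T, Real.log p +
        (1 / 6) * ∑ p ∈ (Ioc (2 * L) (7 * L)).filter Nat.Prime, (7 * (L : ℝ) - p) * Real.log p := by
    have h5 : ∑ p ∈ T.filter (fun p => p ≤ 7 * L), (7 * (L : ℝ) - p) * Real.log p ≤
        ∑ p ∈ (Ioc (2 * L) (7 * L)).filter Nat.Prime, (7 * (L : ℝ) - p) * Real.log p := by
      refine sum_le_sum_of_subset_of_nonneg ?_ ?_
      · intro p hp
        rw [mem_filter, hT, mem_filter] at hp
        have h6 := hmemP p hp.1.1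
        rw [mem_filter, mem_Ioc]
        exact ⟨⟨h6.2.1, hp.2⟩, h6.1⟩
      · intro p hp _
        rw [mem_filter, mem_Ioc] at hp
        have h6 : (p : ℝ) ≤ 7 * L := by exact_mod_cast hp.1.2
        exact mul_nonneg (by linarith) (Real.log_natCast_nonneg p)
    have h6 : ∑ p ∈ T, ((3 * L - dd p : ℕ) : ℝ) * Real.log p ≤
        ∑ p ∈ T, ((11 / 6 * (L : ℝ) + 1) * Real.log p +
          (1 / 6) * (if p ≤ 7 * L then (7 * (L : ℝ) - p) * Real.log p else 0)) := by
      refine sum_le_sum fun p hp => ?_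
      rw [hT, mem_filter] at hp
      have h7 := hmemP p hp.1
      have h8 : (p : ℝ) ≤ 18 * L := by exact_mod_cast h7.2.2
      have h9 : (p : ℝ) ≤ 6 * dd p + 6 := by exact_mod_cast dd_ge p
      have h10 : ((3 * L - dd p : ℕ) : ℝ) ≤ (18 * (L : ℝ) - p) / 6 + 1 := by
        rcases Nat.le_total (dd p) (3 * L) with h | h
        · rw [Nat.cast_sub h]
          push_cast
          linarith
        · rw [Nat.sub_eq_zero_of_le h]
          push_cast
          linarith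
      have h11 := hlog p hp.1
      split_ifs with h12
      · have : ((3 * L - dd p : ℕ) : ℝ) * Real.log p ≤ ((18 * (L : ℝ) - p) / 6 + 1) * Real.log p :=
          mul_le_mul_of_nonneg_right h10 h11
        refine this.trans (le_of_eq ?_)
        ring
      · have h13 : (7 * (L : ℝ)) ≤ p := by
          have : 7 * L ≤ p := by omega
          exact_mod_cast this
        have : ((3 * L - dd p : ℕ) : ℝ) * Real.log p ≤ (11 / 6 * (L : ℝ) + 1) * Real.log p :=
          mul_le_mul_of_nonneg_right (by linarith) h11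
        linarith
    rw [sum_add_distrib, ← mul_sum, ← mul_sum, ← sum_filter] at h6
    linarith
  have B6 : ∑ p ∈ T, Real.log p ≤ ∑ p ∈ P, Real.log p :=
    sum_le_sum_of_subset_of_nonneg (filter_subset _ _) fun p hp _ => hlog p hp
  set Θ := ∑ p ∈ T, Real.log (p : ℝ) with hΘ
  rw [abs_le] at A1 A2 A3
  obtain ⟨A1a, A1b⟩ := A1
  obtain ⟨A2a, A2b⟩ := A2
  obtain ⟨A3a, A3b⟩ := A3
  have C1 : ∑ p ∈ P, Real.log (p : ℝ) ≤ 17 * L := by linarith
  have C2 : 64 / 3 * (L : ℝ) ^ 2 - 54 / 10000 * (L : ℝ) ^ 2 - 17 * L ≤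
      10 * (L : ℝ) ^ 2 + ((11 / 6 * (L : ℝ) + 1) * Θ + (25 / 12 + 54 / 10000) * (L : ℝ) ^ 2) := by
    nlinarith
  have C3 : Θ ≤ 17 * L := B6.trans C1
  by_contra hcon
  push Not at hcon
  nlinarith

end Pool.Agent.H2.HF
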