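import Pool.Agent.H2.HF.LowB
import Pool.Agent.H71.FD.Dens
import Pool.Agent.H11.NW.Defs

/-!
# HF Low: the count of the non-Wieferich primes with `H71.FD.cn` (helper2)
-/

set_option autoImplicit false

namespace Pool.Agent.H2.HF

open Finset Filter Pool.Agent.H80.HF

theorem ncard_eq (x : ℕ) : ({p ∈ NonW | p ≤ x}.ncard : ℕ) =
    Pool.Agent.H71.FD.cn (fun p => 5 ≤ p ∧ ¬ Pool.Agent.H11.NW.Wf p) x := by
  classical
  unfold Pool.Agent.H71.FD.cn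
  rw [← Set.ncard_coe_finset]
  congr 1
  ext p
  simp only [Set.mem_setOf_eq, coe_filter, mem_Icc, NonW, Pool.Agent.H11.NW.Wf]
  constructor
  · rintro ⟨⟨h1, h2, h3⟩, h4⟩
    exact ⟨⟨by omega, h4⟩, h1, h2, h3⟩
  · rintro ⟨⟨h1, h2⟩, h3, h4, h5⟩
    exact ⟨⟨h3, h4, h5⟩, h2⟩

/-- At least `(3/10) x / log x` of the primes `p ≤ x` are not Wieferich primes. -/
theorem low_cn (hmain : MainIneq) : ∀ᶠ x : ℕ in atTop, 3 / 10 * ((x : ℝ) / Real.log x) ≤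
    Pool.Agent.H71.FD.cn (fun p => 5 ≤ p ∧ ¬ Pool.Agent.H11.NW.Wf p) x := by
  obtain ⟨x₀, h⟩ := low_NW hmain
  filter_upwards [eventually_ge_atTop x₀] with x hx
  have h1 := h x hx
  rw [ncard_eq] at h1
  rw [← mul_div_assoc]
  exact h1

end Pool.Agent.H2.HF
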